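import Mathlib.Order.Filter.AtTopBot.Basic
import Mathlib.Algebra.Order.Archimedean.Real.Basic
import Mathlib.Analysis.Complex.ExponentialBounds
import Mathlib.Tactic

/-!
# Torsion homology growth and `L²`-torsion: small relative errors in infinitely many dimensions suffice

Let `M` be a closed aspherical manifold of dimension `2 k + 1` with vanishing `L²`-Betti numbers and
`(Γ_n)` a residual chain of normal subgroups of finite index of `Γ = π_1(M)`, with covers `M_n`. Let `t⁺`
and `t⁻` be the upper and the lower limit of `log |tors H_k(M_n)| / [Γ : Γ_n]`. Question Q1 asks whether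
`t⁺ = t⁻ = (-1)^k ρ^{(2)}`.

If `S` is the closed oriented surface of genus `g ≥ 2` and `(Λ_n)` a residual chain of `π_1(S)`, then the
chain `(Γ_n × Λ_n)` of `M × S` has the numbers `(2 g - 2) t^±` (in degree `k + 1`): by the Künneth formula
the torsion of `H_{k+1}(M_n × S_n)` is the sum of `b_1(S_n) = (2 g - 2) [Λ : Λ_n] + 2` copies of the torsion
of `H_k(M_n)` and of the torsion of `H_{k±1}(M_n)`, which is `exp(O([Γ : Γ_n]))`; and
`ρ^{(2)}(M × S) = χ(S) ρ^{(2)}(M)`. If `M` has a cell structure with `c` cells, `M × S` has one with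
`(2 g + 2) c` cells.

We deduce that Q1 for the manifolds of one dimension implies Q1 in all smaller dimensions, and that Q1
holds if and only if for every `ε > 0` the errors are at most `ε` times the number of cells in infinitely
many dimensions.
-/

set_option autoImplicit false

namespace Pool.Agent.Results.MP_98dedd_gt.SmallErrors

open Filter

universe u

/-- The pairs of a closed aspherical manifold `M` of odd dimension with vanishing `L²`-Betti numbers and a
residual chain `(Γ_n)` of normal subgroups of finite index of `π_1(M)`. -/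
structure Towers where
  /-- the pairs -/
  Tower : Type u
  /-- the number `k`, where `M` has dimension `2 k + 1` -/
  k : Tower → ℕ
  /-- the `L²`-torsion of the universal cover of `M` -/
  rho : Tower → ℝ
  /-- the upper limit of `log |tors H_k(M_n)| / [Γ : Γ_n]` -/
  upper : Tower → ℝ
  /-- the lower limit of `log |tors H_k(M_n)| / [Γ : Γ_n]` -/
  lower : Tower → ℝ
  /-- the smallest number of cells of a finite CW complex homotopy equivalent to `M` -/
  cells : Tower → ℕ

/-- The known properties. -/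
structure IsKnown (T : Towers.{u}) : Prop where
  /-- there is at least one cell -/
  cells_pos : ∀ X, 0 < T.cells X
  /-- the product with the surface of genus `g ≥ 2` (and any residual chain of its fundamental group) -/
  surface : ∀ (X : T.Tower) (g : ℕ), 2 ≤ g → ∃ Y : T.Tower, T.k Y = T.k X + 1 ∧
    T.rho Y = -(2 * g - 2) * T.rho X ∧ T.upper Y = (2 * g - 2) * T.upper X ∧
    T.lower Y = (2 * g - 2) * T.lower X ∧ T.cells Y ≤ (2 * g + 2) * T.cells X

variable {T : Towers.{u}}

/-- Q1 for one manifold and one chain: the limit exists and is `(-1)^k ρ^{(2)}`. -/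
def Holds (X : T.Tower) : Prop :=
  T.upper X = (-1) ^ T.k X * T.rho X ∧ T.lower X = (-1) ^ T.k X * T.rho X

/-- Question Q1. -/
def Conjecture (T : Towers.{u}) : Prop := ∀ X : T.Tower, Holds X

/-- The upper and the lower limit differ from `(-1)^k ρ^{(2)}` by at most `e`. -/
def ErrorLE (X : T.Tower) (e : ℝ) : Prop :=
  |T.upper X - (-1) ^ T.k X * T.rho X| ≤ e ∧ |T.lower X - (-1) ^ T.k X * T.rho X| ≤ e

theorem holds_iff (X : T.Tower) : Holds X ↔ ErrorLE X 0 := by
  unfold Holds ErrorLE
  rw [abs_nonpos_iff, abs_nonpos_iff, sub_eq_zero, sub_eq_zero]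

theorem scale {a b : ℝ} {k : ℕ} {g : ℕ} (hg : 2 ≤ g) (e : ℝ) :
    |(2 * g - 2) * a - (-1) ^ (k + 1) * (-(2 * g - 2) * b)| ≤ (2 * g - 2) * e ↔
      |a - (-1) ^ k * b| ≤ e := by
  have h2 : (0 : ℝ) < 2 * g - 2 := by
    have : (2 : ℝ) ≤ g := by exact_mod_cast hg
    linarith
  have h3 : (2 * g - 2) * a - (-1 : ℝ) ^ (k + 1) * (-(2 * g - 2) * b)
      = (2 * g - 2) * (a - (-1) ^ k * b) := by
    rw [pow_succ]
    ring
  rw [h3, abs_mul, abs_of_pos h2]
  exact mul_le_mul_iff_right₀ h2

theorem surface_error (hT : IsKnown T) (X : T.Tower) (g : ℕ) (hg : 2 ≤ g) :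
    ∃ Y : T.Tower, T.k Y = T.k X + 1 ∧ T.cells Y ≤ (2 * g + 2) * T.cells X ∧
      ∀ e, ErrorLE Y ((2 * g - 2) * e) ↔ ErrorLE X e := by
  obtain ⟨Y, h1, h2, h3, h4, h5⟩ := hT.surface X g hg
  refine ⟨Y, h1, h5, fun e => ?_⟩
  unfold ErrorLE
  rw [h1, h2, h3, h4, scale hg e, scale hg e]

theorem surfaces_error (hT : IsKnown T) (X : T.Tower) (g : ℕ) (hg : 2 ≤ g) (m : ℕ) :
    ∃ Y : T.Tower, T.k Y = T.k X + m ∧ T.cells Y ≤ (2 * g + 2) ^ m * T.cells X ∧
      ∀ e, ErrorLE Y ((2 * g - 2) ^ m * e) ↔ ErrorLE X e := by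
  induction m with
  | zero => exact ⟨X, rfl, by simp, fun e => by simp⟩
  | succ m ih =>
    obtain ⟨Y, h1, h2, h3⟩ := ih
    obtain ⟨Z, h4, h5, h6⟩ := surface_error hT Y g hg
    refine ⟨Z, by omega, ?_, fun e => ?_⟩
    · calc T.cells Z ≤ (2 * g + 2) * T.cells Y := h5
        _ ≤ (2 * g + 2) * ((2 * g + 2) ^ m * T.cells X) := Nat.mul_le_mul_left _ h2
        _ = (2 * g + 2) ^ (m + 1) * T.cells X := by ring
    · rw [← h3 e, ← h6]
      have e1 : (2 * (g : ℝ) - 2) ^ (m + 1) * e = (2 * g - 2) * ((2 * g - 2) ^ m * e) := by ring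
      rw [e1]

/-- one can lower the dimension -/
theorem holds_of_succ (hT : IsKnown T) (k : ℕ) (h : ∀ X : T.Tower, T.k X = k + 1 → Holds X)
    (X : T.Tower) (hX : T.k X = k) : Holds X := by
  obtain ⟨Y, h1, -, h3⟩ := surface_error hT X 2 le_rfl
  have h4 := (holds_iff Y).1 (h Y (by omega))
  rw [holds_iff, ← h3 0, mul_zero]
  exact h4

theorem holds_of_le (hT : IsKnown T) (k m : ℕ) (h : ∀ X : T.Tower, T.k X = k + m → Holds X)
    (X : T.Tower) (hX : T.k X = k) : Holds X := by
  induction m with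
  | zero => exact h X hX
  | succ m ih => exact ih fun Y hY => holds_of_succ hT (k + m) h Y hY

theorem ratio_le (m : ℕ) (hm : 1 ≤ m) :
    ((2 * ((4 * m + 1 : ℕ) : ℝ) + 2)) ^ m ≤ 2 * (2 * ((4 * m + 1 : ℕ) : ℝ) - 2) ^ m := by
  have hm0 : (0 : ℝ) < m := by exact_mod_cast hm
  have e1 : (2 * ((4 * m + 1 : ℕ) : ℝ) - 2) = 8 * m := by push_cast; ring
  have e2 : (2 * ((4 * m + 1 : ℕ) : ℝ) + 2) = 8 * m * (1 + 1 / (2 * m)) := by
    push_cast
    field_simp
    ring
  rw [e1, e2, mul_pow]
  have h1 : (1 + 1 / (2 * (m : ℝ))) ≤ Real.exp (1 / (2 * m)) := by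
    have := Real.add_one_le_exp (1 / (2 * (m : ℝ)))
    linarith
  have key : (1 + 1 / (2 * (m : ℝ))) ^ m ≤ 2 := by
    calc (1 + 1 / (2 * (m : ℝ))) ^ m ≤ Real.exp (1 / (2 * m)) ^ m :=
          pow_le_pow_left₀ (by positivity) h1 m
      _ = Real.exp (1 / 2) := by
          rw [← Real.exp_nat_mul]
          congr 1
          field_simp
      _ ≤ 2 := by
          have h2 : Real.exp (1 / 2) * Real.exp (1 / 2) = Real.exp 1 := by
            rw [← Real.exp_add]; norm_num
          have h3 := Real.exp_one_lt_d9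
          have h4 := Real.exp_pos (1 / 2)
          nlinarith
  have hp : (0 : ℝ) ≤ (8 * m) ^ m := by positivity
  calc (8 * (m : ℝ)) ^ m * (1 + 1 / (2 * (m : ℝ))) ^ m ≤ (8 * m) ^ m * 2 :=
        mul_le_mul_of_nonneg_left key hp
    _ = 2 * (8 * m) ^ m := mul_comm _ _

/-- A failure gives failures of the same relative size, up to the factor two, in all larger
dimensions. -/
theorem failure (hT : IsKnown T) (X : T.Tower) {e : ℝ} (he : 0 ≤ e) (hX : ¬ ErrorLE X e) (m : ℕ) :
    ∃ Y : T.Tower, T.k Y = T.k X + m ∧ ¬ ErrorLE Y (e / (2 * T.cells X) * T.cells Y) := by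
  have hc : (0 : ℝ) < T.cells X := by exact_mod_cast hT.cells_pos X
  rcases Nat.eq_zero_or_pos m with rfl | hm
  · refine ⟨X, rfl, fun h => hX ?_⟩
    have e1 : e / (2 * T.cells X) * T.cells X = e / 2 := by field_simp
    rw [e1] at h
    exact ⟨h.1.trans (by linarith), h.2.trans (by linarith)⟩
  · obtain ⟨Y, h1, h2, h3⟩ := surfaces_error hT X (4 * m + 1) (by omega) m
    refine ⟨Y, h1, fun h => hX ?_⟩
    rw [← h3 e]
    have h4 : (T.cells Y : ℝ) ≤ (2 * ((4 * m + 1 : ℕ) : ℝ) + 2) ^ m * T.cells X := by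
      exact_mod_cast h2
    have h5 := ratio_le m hm
    have h6 : e / (2 * T.cells X) * T.cells Y ≤ (2 * ((4 * m + 1 : ℕ) : ℝ) - 2) ^ m * e := by
      calc e / (2 * T.cells X) * T.cells Y
          ≤ e / (2 * T.cells X) * (2 * (2 * ((4 * m + 1 : ℕ) : ℝ) - 2) ^ m * T.cells X) := by
            refine mul_le_mul_of_nonneg_left (h4.trans ?_) (by positivity)
            exact mul_le_mul_of_nonneg_right h5 hc.le
        _ = (2 * ((4 * m + 1 : ℕ) : ℝ) - 2) ^ m * e := by
            field_simp
    exact ⟨h.1.trans h6, h.2.trans h6⟩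

/-- **Small relative errors in infinitely many dimensions suffice.** For all data with the known
properties:

* Q1 for all manifolds (and chains) of dimension `2 (k + m) + 1` implies Q1 for all manifolds (and chains)
  of dimension `2 k + 1`;
* if the upper or the lower limit for `(M, (Γ_n))`, `dim M = 2 k + 1`, `M` with `c` cells, differs from
  `(-1)^k ρ^{(2)}` by more than `e ≥ 0`, then for every `m` there is a manifold with chain of dimension
  `2 (k + m) + 1` for which one of the limits differs from `(-1)^{k+m} ρ^{(2)}` by more than `e / (2 c)`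
  times the number of cells;
* Q1 holds if and only if for every `ε > 0` there are arbitrarily large `k` such that for all manifolds and
  chains of dimension `2 k + 1` both limits differ from `(-1)^k ρ^{(2)}` by at most `ε` times the number of
  cells. -/
theorem result (T : Towers.{u}) (hT : IsKnown T) :
    (∀ k m : ℕ, (∀ X : T.Tower, T.k X = k + m → Holds X) → ∀ X : T.Tower, T.k X = k → Holds X) ∧
    (∀ (X : T.Tower) (e : ℝ), 0 ≤ e → ¬ ErrorLE X e → ∀ m : ℕ, ∃ Y : T.Tower,
      T.k Y = T.k X + m ∧ ¬ ErrorLE Y (e / (2 * T.cells X) * T.cells Y)) ∧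
    (Conjecture T ↔ ∀ ε : ℝ, 0 < ε → ∃ᶠ k : ℕ in atTop, ∀ X : T.Tower, T.k X = k →
      ErrorLE X (ε * T.cells X)) := by
  refine ⟨holds_of_le hT, fun X e he hX m => failure hT X he hX m, ⟨fun h ε hε => ?_, fun h X => ?_⟩⟩
  · refine (Eventually.of_forall fun k X _ => ?_).frequently
    have h1 := (holds_iff X).1 (h X)
    have h2 : 0 ≤ ε * (T.cells X : ℝ) := by positivity
    exact ⟨h1.1.trans h2, h1.2.trans h2⟩
  · by_contra hX
    rw [holds_iff] at hX
    have hc : (0 : ℝ) < T.cells X := by exact_mod_cast hT.cells_pos X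
    obtain ⟨e, he, heX⟩ : ∃ e : ℝ, 0 < e ∧ ¬ ErrorLE X e := by
      unfold ErrorLE at hX
      rw [not_and_or, not_le, not_le] at hX
      rcases hX with hX | hX
      · refine ⟨_, half_pos hX, fun h => ?_⟩
        have := h.1
        linarith
      · refine ⟨_, half_pos hX, fun h => ?_⟩
        have := h.2
        linarith
    obtain ⟨n, hn, hall⟩ := (frequently_atTop.1 (h (e / (2 * T.cells X)) (by positivity))) (T.k X)
    obtain ⟨Y, h1, h2⟩ := failure hT X he.le heX (n - T.k X)
    exact h2 (hall Y (by omega))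

end Pool.Agent.Results.MP_98dedd_gt.SmallErrors
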